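import Pool.Agent.P8H39.TI.All8

/-!
# MP_d97b4e_co: degree power sums of `t`-intersecting families

Q1 holds for `p = 2` (all levels `r`), for all real `p ≥ 2` at all levels `r ≤ t`, both in the full
range `n ≥ (t+1)(k-t+1)`; for all real `p ≥ 2` at the level `r = t+1` (with a few exceptions close to
the end of the range of `n`), and at all levels if `n ≥ t + 8 r (k-t)`, or (in the full range of `n`) if
`p C(n-k-r,k-r) ≥ 2 C(n-r,k-r) log C(n,r)`.

Idea: let `x_j`, `z_j` be the weights of degree `j` (harmonic decomposition of the functions on the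
`k`-sets) of the family and of the full star.  Wilson's inequality and Lagrange interpolation at the
nodes `j (n+1-j)`, `1 ≤ j ≤ t`, give `|S| (x_0 + ... + x_s) ≤ |F| (z_0 + ... + z_s)` for all `s` and
`x_j ≤ z_j` for every single `j ≤ t`.  For a threshold `c` there are coefficients `b ≥ 0` such that
`g(R) = Σ_{A ∈ F} b(|R \ A|) - c |F|/|S| ≥ d(R) - c` is an equality (to the positive part) for the
star; so `Σ_R (d_F(R) - c)_+^2 ≤ Σ_R g_F(R)^2 ≤ Σ_R g_S(R)^2 = Σ_R (d_S(R) - c)_+^2`, and integration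
over `c` gives all `p ≥ 2`.  For large `p`: the sets `R` of nearly full degree form a `t`-intersecting family
of `r`-sets, and equality in Wilson's theorem holds only for stars if `n > (t+1)(r-t+1)`.
-/

set_option autoImplicit false

namespace Pool.Agent.Results.MP_d97b4e_co.DegreePowerSums

open Finset

/-- `F` is a `t`-intersecting family of `k`-element subsets of `Fin n` -/
def TIntersecting {n : ℕ} (k t : ℕ) (F : Finset (Finset (Fin n))) : Prop :=
  (∀ A ∈ F, A.card = k) ∧ ∀ A ∈ F, ∀ B ∈ F, t ≤ (A ∩ B).card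

/-- the degree of `R` in `F`: the number of members of `F` which contain `R` -/
def degree {n : ℕ} (F : Finset (Finset (Fin n))) (R : Finset (Fin n)) : ℕ :=
  (F.filter (fun A => R ⊆ A)).card

/-- the family of all `k`-element subsets of `Fin n` which contain `T` -/
def fullStar {n : ℕ} (k : ℕ) (T : Finset (Fin n)) : Finset (Finset (Fin n)) :=
  (powersetCard k univ).filter (fun A => T ⊆ A)

/-- the `r`-degree power sum with exponent `p` -/
noncomputable def powerSum {n : ℕ} (r : ℕ) (p : ℝ) (F : Finset (Finset (Fin n))) : ℝ :=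
  ∑ R ∈ powersetCard r univ, (degree F R : ℝ) ^ p

/-- (1) For `1 ≤ t ≤ k`, `1 ≤ r ≤ k - 1`, `n ≥ (t+1)(k-t+1)` and real `p ≥ 2` a full `t`-star
maximizes the `r`-degree power sum with exponent `p` among the `t`-intersecting families of
`k`-subsets of `Fin n` in each of the cases: `p = 2`; `r ≤ t`; `n ≥ t + 8 r (k-t)`;
`p C(n-k-r,k-r) ≥ 2 C(n-r,k-r) log C(n,r)`; `r = t + 1`, `t ≥ 2`, `k ≥ t + 3` and
(`k ≤ 2t` or `n ≥ t (k-t+3) - 1`).
(2) For `p = 2` and all `r ≤ k` the full `t`-star even maximizes the quotient of the power sum and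
the number of members. -/
theorem result :
    (∀ (n k t r : ℕ) (p : ℝ) (F : Finset (Finset (Fin n))) (T : Finset (Fin n)),
      1 ≤ t → t ≤ k → 1 ≤ r → r ≤ k - 1 → (t + 1) * (k - t + 1) ≤ n →
      TIntersecting k t F → T.card = t → 2 ≤ p →
      (p = 2 ∨ r ≤ t ∨ t + 8 * r * (k - t) ≤ n ∨
        2 * ((n - r).choose (k - r) : ℝ) * Real.log (n.choose r) ≤
          p * ((n - k - r).choose (k - r) : ℝ) ∨
        (r = t + 1 ∧ 2 ≤ t ∧ t + 3 ≤ k ∧ (k ≤ 2 * t ∨ t * (k - t + 3) ≤ n + 1))) →
        powerSum r p F ≤ powerSum r p (fullStar k T)) ∧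
    (∀ (n k t r : ℕ) (F : Finset (Finset (Fin n))) (T : Finset (Fin n)),
      1 ≤ t → t ≤ k → r ≤ k → (t + 1) * (k - t + 1) ≤ n → TIntersecting k t F → T.card = t →
      powerSum r 2 F * ((fullStar k T).card : ℝ) ≤ (F.card : ℝ) * powerSum r 2 (fullStar k T)) :=
  Pool.Agent.P8H39.TI.aFIN8

end Pool.Agent.Results.MP_d97b4e_co.DegreePowerSums
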